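import Mathlib
import Pool.Agent.Helper65.SL.Base

/-! Module PCN: the functional `pf` is a continuous function on `M × N`. -/

set_option maxSynthPendingDepth 3
set_option linter.unusedSectionVars false
set_option linter.deprecated false
set_option linter.unusedVariables false

namespace Pool.Agent.Helper72.SL

open Filter Topology
open scoped ContDiff Manifold
open Pool.Agent.Helper23.Ric
open Pool.Agent.Helper65.SL

section coordinates

variable {E : Type*} [NormedAddCommGroup E] [NormedSpace ℝ E] [FiniteDimensional ℝ E]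
variable {G G' : E → E →L[ℝ] E →L[ℝ] ℝ} {z : E}

theorem chris_germ (h : G =ᶠ[𝓝 z] G') :
    ∀ᶠ y in 𝓝 z, ∀ v w, chris G y v w = chris G' y v w := by
  filter_upwards [h.eventually_nhds] with y hy v w
  have hy' : G =ᶠ[𝓝 y] G' := hy
  unfold chris dform₁ dform₂
  rw [hy'.self_of_nhds, hy'.fderiv_eq]

theorem riem_germ (h : G =ᶠ[𝓝 z] G') (u v w : E) : riem G z u v w = riem G' z u v w := by
  have h1 := chris_germ h
  have h2 : ∀ v w, (fun y => chris G y v w) =ᶠ[𝓝 z] fun y => chris G' y v w := by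
    intro v w
    filter_upwards [h1] with y hy
    exact hy v w
  unfold riem
  rw [(h2 v w).fderiv_eq, (h2 u w).fderiv_eq]
  simp only [h1.self_of_nhds]

theorem ricci_germ (h : G =ᶠ[𝓝 z] G') (v w : E) : ricci G z v w = ricci G' z v w := by
  unfold ricci
  simp only [riem_germ h]

theorem hess_germ {θ θ' : E → ℝ} (hθ : θ =ᶠ[𝓝 z] θ') (h : G =ᶠ[𝓝 z] G') (v w : E) :
    hess θ G z v w = hess θ' G' z v w := by
  unfold hess
  rw [hθ.fderiv.fderiv_eq, hθ.fderiv_eq, (chris_germ h).self_of_nhds]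

theorem pf_germ {m : ℕ} {θ θ' : E → ℝ} (hθ : θ =ᶠ[𝓝 z] θ') (h : G =ᶠ[𝓝 z] G')
    (e : Fin m → E) : pf m θ G z e = pf m θ' G' z e := by
  unfold pf
  apply Finset.sum_congr rfl
  intro i _
  rw [ricci_germ h, hess_germ hθ h, hθ.fderiv_eq]

end coordinates

section manifold

variable {E₁ E₂ : Type*} [NormedAddCommGroup E₁] [NormedSpace ℝ E₁] [FiniteDimensional ℝ E₁]
  [NormedAddCommGroup E₂] [NormedSpace ℝ E₂] [FiniteDimensional ℝ E₂]
  {H₁ H₂ : Type*} [TopologicalSpace H₁] [TopologicalSpace H₂]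
  {I : ModelWithCorners ℝ E₁ H₁} {J : ModelWithCorners ℝ E₂ H₂} [I.Boundaryless] [J.Boundaryless]
  {M N : Type*} [TopologicalSpace M] [TopologicalSpace N]
  [ChartedSpace H₁ M] [IsManifold I ∞ M] [ChartedSpace H₂ N] [IsManifold J ∞ N]

/-- The two charts together. -/
theorem tendsto_charts (x₁ : M) (y₁ : N) :
    Tendsto (fun q : M × N => (extChartAt I x₁ q.1, extChartAt J y₁ q.2)) (𝓝 (x₁, y₁))
      (𝓝 (extChartAt I x₁ x₁, extChartAt J y₁ y₁)) := by
  have h1 : Tendsto (fun q : M × N => extChartAt I x₁ q.1) (𝓝 (x₁, y₁))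
      (𝓝 (extChartAt I x₁ x₁)) := (continuousAt_extChartAt (I := I) x₁).tendsto.comp
        (continuous_fst.tendsto (x₁, y₁))
  have h2 : Tendsto (fun q : M × N => extChartAt J y₁ q.2) (𝓝 (x₁, y₁))
      (𝓝 (extChartAt J y₁ y₁)) := (continuousAt_extChartAt (I := J) y₁).tendsto.comp
        (continuous_snd.tendsto (x₁, y₁))
  exact h1.prodMk_nhds h2

/-- Continuity can be checked in charts. -/
theorem continuousAt_of_charts {Q : M → N → ℝ} {x₁ : M} {y₁ : N} {T : E₁ × E₂ → ℝ}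
    (hT : ContinuousAt T (extChartAt I x₁ x₁, extChartAt J y₁ y₁))
    (h : ∀ᶠ q in 𝓝 (x₁, y₁), Q q.1 q.2 = T (extChartAt I x₁ q.1, extChartAt J y₁ q.2)) :
    ContinuousAt (fun q : M × N => Q q.1 q.2) (x₁, y₁) := by
  have h1 : ContinuousAt (fun q : M × N => T (extChartAt I x₁ q.1, extChartAt J y₁ q.2))
      (x₁, y₁) := by
    have := hT.tendsto.comp (tendsto_charts (I := I) (J := J) x₁ y₁)
    exact this
  refine h1.congr ?_
  filter_upwards [h] with q hq
  exact hq.symm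

theorem source_fst (x₁ : M) (y₁ : N) :
    ∀ᶠ q : M × N in 𝓝 (x₁, y₁), q.1 ∈ (extChartAt I x₁).source :=
  (continuous_fst.tendsto (x₁, y₁)).eventually (extChartAt_source_mem_nhds (I := I) x₁)

theorem source_snd (x₁ : M) (y₁ : N) :
    ∀ᶠ q : M × N in 𝓝 (x₁, y₁), q.2 ∈ (extChartAt J y₁).source :=
  (continuous_snd.tendsto (x₁, y₁)).eventually (extChartAt_source_mem_nhds (I := J) y₁)

theorem pcn {m : ℕ} (hm : m = Module.finrank ℝ E₂)
    (onf : ∀ {B : E₂ →L[ℝ] E₂ →L[ℝ] ℝ}, (∀ v w, B v w = B w v) → (∀ v, v ≠ 0 → 0 < B v v) →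
      ∃ e : Fin m → E₂, IsOrtho B e)
    (trc : ∀ {G : E₂ → E₂ →L[ℝ] E₂ →L[ℝ] ℝ} {θ : E₁ → E₂ → ℝ} {w₁ : E₁} {z₁ : E₂},
      GoodAt G z₁ → ContDiffAt ℝ 2 (fun p : E₁ × E₂ => θ p.1 p.2) (w₁, z₁) →
      ∃ T : E₁ × E₂ → ℝ, ContinuousAt T (w₁, z₁) ∧
        ∀ᶠ p in 𝓝 (w₁, z₁), ∀ e : Fin m → E₂, IsOrtho (G p.2) e → pf m (θ p.1) G p.2 e = T p)
    (pfi : ∀ {G : E₂ → E₂ →L[ℝ] E₂ →L[ℝ] ℝ} {ψ : E₂ → E₂} {z : E₂} {θ : E₂ → ℝ},
      ContDiffAt ℝ 3 ψ z → Function.Injective (fderiv ℝ ψ z) → GoodAt G (ψ z) →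
      ContDiffAt ℝ 2 θ (ψ z) → ∀ e : Fin m → E₂,
      pf m (fun y => θ (ψ y)) (pull ψ G) z e = pf m θ G (ψ z) (fun i => fderiv ℝ ψ z (e i)))
    (trs : ∀ (h : RMetric J N) (y₁ y : N), y ∈ (chartAt H₂ y₁).source →
      ∃ ψ : E₂ → E₂, ContDiffAt ℝ 3 ψ (extChartAt J y y) ∧
        ψ (extChartAt J y y) = extChartAt J y₁ y ∧
        Function.Injective (fderiv ℝ ψ (extChartAt J y y)) ∧
        (∀ᶠ z in 𝓝 (extChartAt J y y), (extChartAt J y).symm z = (extChartAt J y₁).symm (ψ z)) ∧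
        inChart J h.form y =ᶠ[𝓝 (extChartAt J y y)] pull ψ (inChart J h.form y₁))
    (h : RMetric J N) (Θ : M → N → ℝ)
    (hΘ : ∀ x y, ContDiffAt ℝ 2 (fun p : E₁ × E₂ =>
      Θ ((extChartAt I x).symm p.1) ((extChartAt J y).symm p.2)) (extChartAt I x x, extChartAt J y y)) :
    Continuous (fun p : M × N => Θ p.1 p.2) ∧
    ∃ P : M → N → ℝ, Continuous (fun p : M × N => P p.1 p.2) ∧
      ∀ x y (e : Fin m → E₂), IsOrtho (inChart J h.form y (extChartAt J y y)) e →
        pf m (fun z => Θ x ((extChartAt J y).symm z)) (inChart J h.form y) (extChartAt J y y) e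
          = P x y := by
  constructor
  · rw [continuous_iff_continuousAt]
    rintro ⟨x₁, y₁⟩
    apply continuousAt_of_charts (I := I) (J := J) (hΘ x₁ y₁).continuousAt
    filter_upwards [source_fst (I := I) x₁ y₁, source_snd (J := J) x₁ y₁] with q h1 h2
    simp only [(extChartAt I x₁).left_inv h1, (extChartAt J y₁).left_inv h2]
  have hT : ∀ (x : M) (y : N), ∃ T : E₁ × E₂ → ℝ,
      ContinuousAt T (extChartAt I x x, extChartAt J y y) ∧
      ∀ᶠ p in 𝓝 (extChartAt I x x, extChartAt J y y), ∀ e : Fin m → E₂,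
        IsOrtho (inChart J h.form y p.2) e →
        pf m (fun z => Θ ((extChartAt I x).symm p.1) ((extChartAt J y).symm z))
          (inChart J h.form y) p.2 e = T p := by
    intro x y
    exact trc (G := inChart J h.form y)
      (θ := fun w z => Θ ((extChartAt I x).symm w) ((extChartAt J y).symm z))
      (goodAt_chart h y) (hΘ x y)
  choose T hTc hTe using hT
  have hP : ∀ x y (e : Fin m → E₂), IsOrtho (inChart J h.form y (extChartAt J y y)) e →
        pf m (fun z => Θ x ((extChartAt J y).symm z)) (inChart J h.form y) (extChartAt J y y) e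
          = T x y (extChartAt I x x, extChartAt J y y) := by
    intro x y e he
    have h1 := (hTe x y).self_of_nhds e he
    simp only [extChartAt_to_inv] at h1
    exact h1
  refine ⟨fun x y => T x y (extChartAt I x x, extChartAt J y y), ?_, hP⟩
  rw [continuous_iff_continuousAt]
  rintro ⟨x₁, y₁⟩
  refine continuousAt_of_charts (I := I) (J := J)
    (Q := fun x y => T x y (extChartAt I x x, extChartAt J y y)) (hTc x₁ y₁) ?_
  have hch := tendsto_charts (I := I) (J := J) x₁ y₁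
  have hgood : ∀ᶠ p : E₁ × E₂ in 𝓝 (extChartAt I x₁ x₁, extChartAt J y₁ y₁),
      GoodAt (inChart J h.form y₁) p.2 :=
    (continuous_snd.tendsto (extChartAt I x₁ x₁, extChartAt J y₁ y₁)).eventually
      (goodAt_chart h y₁).eventually
  have hsm : ∀ᶠ p : E₁ × E₂ in 𝓝 (extChartAt I x₁ x₁, extChartAt J y₁ y₁),
      ContDiffAt ℝ 2 (fun p : E₁ × E₂ =>
        Θ ((extChartAt I x₁).symm p.1) ((extChartAt J y₁).symm p.2)) p :=
    (hΘ x₁ y₁).eventually (by simp)
  have hsrc : ∀ᶠ q : M × N in 𝓝 (x₁, y₁), q.2 ∈ (chartAt H₂ y₁).source :=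
    (continuous_snd.tendsto (x₁, y₁)).eventually (chart_source_mem_nhds H₂ y₁)
  filter_upwards [source_fst (I := I) x₁ y₁, hsrc, hch.eventually hgood,
    hch.eventually hsm, hch.eventually (hTe x₁ y₁)] with q hq1 hq2 hq3 hq4 hq5
  obtain ⟨x, y⟩ := q
  simp only at hq1 hq2 hq3 hq4 hq5 ⊢
  obtain ⟨ψ, hψ1, hψ2, hψ3, hψ4, hψ5⟩ := trs h y₁ y hq2
  have hgy := goodAt_chart h y
  obtain ⟨e, he⟩ := onf hgy.symm.self_of_nhds hgy.pos.self_of_nhds
  have hx : (extChartAt I x₁).symm (extChartAt I x₁ x) = x := (extChartAt I x₁).left_inv hq1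
  rw [hx] at hq5
  have hθ : ContDiffAt ℝ 2 (fun z => Θ x ((extChartAt J y₁).symm z)) (extChartAt J y₁ y) := by
    have h1 : ContDiffAt ℝ 2 (fun z : E₂ => (extChartAt I x₁ x, z)) (extChartAt J y₁ y) :=
      contDiffAt_const.prodMk contDiffAt_id
    have h2 := ContDiffAt.comp (extChartAt J y₁ y) (g := fun p : E₁ × E₂ =>
        Θ ((extChartAt I x₁).symm p.1) ((extChartAt J y₁).symm p.2)) hq4 h1
    have h3 : ((fun p : E₁ × E₂ => Θ ((extChartAt I x₁).symm p.1) ((extChartAt J y₁).symm p.2)) ∘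
        fun z : E₂ => (extChartAt I x₁ x, z)) = fun z => Θ x ((extChartAt J y₁).symm z) := by
      funext z
      simp only [Function.comp_apply, hx]
    rw [h3] at h2
    exact h2
  rw [← hP x y e he]
  have hθ1 : (fun z => Θ x ((extChartAt J y).symm z)) =ᶠ[𝓝 (extChartAt J y y)]
      fun z => (fun z' => Θ x ((extChartAt J y₁).symm z')) (ψ z) := by
    filter_upwards [hψ4] with z hz
    simp only [hz]
  have h6 := pfi (G := inChart J h.form y₁) (θ := fun z' => Θ x ((extChartAt J y₁).symm z'))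
    hψ1 hψ3 (by rw [hψ2]; exact hq3) (by rw [hψ2]; exact hθ) e
  refine (pf_germ hθ1 hψ5 e).trans (h6.trans ?_)
  rw [hψ2]
  apply hq5
  intro i j
  rw [← he i j, hψ5.self_of_nhds, ← hψ2]
  rfl

end manifold

end Pool.Agent.Helper72.SL
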